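import Pool.Agent.Helper37.FC.Defs
import Pool.Agent.Helper37.FC.Final

/-!
MP_86df06_gt: for every `d ≥ 4` neither the cone `ζ(𝒫^d)` of the content vectors of `d`-polytopes
nor the cone `ζ(𝒞_1^d)` of the content vectors of convex bodies with finite `ζ_1` is convex.

The definitions (`IsPolytope`, `IsFace`, `faceContent`, `extContent`, `zetaPolytopes`,
`zetaBodies`) are in `Pool.Agent.Helper37.FC.Defs`.
-/

set_option autoImplicit false

namespace Pool.Agent.Results.MP_86df06_gt.NotConvex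

open Pool.Agent.Helper37.FC

/-- In every dimension `d ≥ 4` the sets `ζ(𝒫^d)` and `ζ(𝒞_1^d)` are both non-convex. -/
theorem result : ∀ d : ℕ, 4 ≤ d →
    ¬ Convex ℝ (zetaPolytopes d) ∧ ¬ Convex ℝ (zetaBodies d) := by
  intro d hd
  obtain ⟨n, rfl⟩ : ∃ n, d = n + 4 := ⟨d - 4, by omega⟩
  exact ⟨Final.polytopes n, Final.bodies n⟩

end Pool.Agent.Results.MP_86df06_gt.NotConvex
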